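import Mathlib

set_option autoImplicit false

namespace Pool.Agent.Results.MP_17a11e_co.Example

open Classical in
/-- Every level line `f = c` of the linear form `f` misses `S` or contains exactly two points. -/
def TwoOrNone (S : Finset (ℝ × ℝ)) (f : ℝ × ℝ → ℝ) : Prop :=
  ∀ c : ℝ, (S.filter (fun p => f p = c)).card = 0 ∨ (S.filter (fun p => f p = c)).card = 2

def T : Finset (ℤ × ℤ) :=
  {(0, 2), (0, 4), (2, 0), (2, 6), (3, 3), (3, 5), (4, 0), (4, 3), (5, 1), (5, 4), (6, 1), (6, 6),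
    (7, 2), (7, 5)}

def emb : ℤ × ℤ ↪ ℝ × ℝ :=
  ⟨fun p => ((p.1 : ℝ), (p.2 : ℝ)), by
    rintro ⟨a, b⟩ ⟨c, d⟩ h
    simpa using h⟩

lemma key (f : ℝ × ℝ → ℝ) (g : ℤ × ℤ → ℤ) (hfg : ∀ p, f (emb p) = g p)
    (hg : ∀ q ∈ T, (T.filter (fun p => g p = g q)).card = 2) : TwoOrNone (T.map emb) f := by
  classical
  intro c
  by_cases h : ∃ q ∈ T, (g q : ℝ) = c
  · obtain ⟨q, hq, rfl⟩ := h
    right
    rw [Finset.filter_map, Finset.card_map, ← hg q hq]
    congr 1
    apply Finset.filter_congr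
    intro p _
    simp [hfg]
  · left
    rw [Finset.filter_map, Finset.card_map, Finset.card_eq_zero, Finset.filter_eq_empty_iff]
    intro p hp hc
    exact h ⟨p, hp, by simpa [hfg] using hc⟩

theorem result :
    ∃ S : Finset (ℝ × ℝ), S.card = 14 ∧ TwoOrNone S (fun p => p.2) ∧ TwoOrNone S (fun p => p.1) ∧
      TwoOrNone S (fun p => p.2 - p.1) ∧ TwoOrNone S (fun p => p.2 + p.1) := by
  refine ⟨T.map emb, by rw [Finset.card_map]; decide +kernel,
    key _ (fun p => p.2) (fun p => rfl) (by decide +kernel),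
    key _ (fun p => p.1) (fun p => rfl) (by decide +kernel),
    key _ (fun p => p.2 - p.1) (fun p => by simp [emb]) (by decide +kernel),
    key _ (fun p => p.2 + p.1) (fun p => by simp [emb]) (by decide +kernel)⟩

end Pool.Agent.Results.MP_17a11e_co.Example
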